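import Pool.Agent.WIR.StmtsC

/-!
# Row PRJ of the squad WIR (projection)
-/

set_option autoImplicit false

namespace Pool.Agent.WIR.H60

theorem two_mul_inv (N : ℕ) : (2 : ZMod (3 ^ N)) * (2 : ZMod (3 ^ N))⁻¹ = 1 := by
  have h := ZMod.coe_mul_inv_eq_one (n := 3 ^ N) 2 (Nat.Coprime.pow_right N (by norm_num))
  rw [Nat.cast_ofNat] at h
  exact h

theorem pj_FO {N N' : ℕ} (h : N ≤ N') (O : Finset ℕ) : pj N N' (FO N' O) = FO N O := by
  have hd : 3 ^ N ∣ 3 ^ N' := pow_dvd_pow 3 h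
  have e1 : ∀ x : ZMod (3 ^ N'), pj N N' x = ZMod.castHom hd (ZMod (3 ^ N)) x := by
    intro x
    rw [pj, ZMod.natCast_val, ZMod.castHom_apply]
  have e2 : ZMod.castHom hd (ZMod (3 ^ N)) (2 : ZMod (3 ^ N'))⁻¹ = (2 : ZMod (3 ^ N))⁻¹ := by
    have h1 : (2 : ZMod (3 ^ N)) * ZMod.castHom hd (ZMod (3 ^ N)) (2 : ZMod (3 ^ N'))⁻¹ = 1 := by
      have h2 := congrArg (ZMod.castHom hd (ZMod (3 ^ N))) (two_mul_inv N')
      rw [map_mul, map_one, map_ofNat] at h2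
      exact h2
    calc ZMod.castHom hd (ZMod (3 ^ N)) (2 : ZMod (3 ^ N'))⁻¹
        = ((2 : ZMod (3 ^ N)) * (2 : ZMod (3 ^ N))⁻¹) *
          ZMod.castHom hd (ZMod (3 ^ N)) (2 : ZMod (3 ^ N'))⁻¹ := by rw [two_mul_inv, one_mul]
      _ = ((2 : ZMod (3 ^ N)) * ZMod.castHom hd (ZMod (3 ^ N)) (2 : ZMod (3 ^ N'))⁻¹) *
          (2 : ZMod (3 ^ N))⁻¹ := by ring
      _ = (2 : ZMod (3 ^ N))⁻¹ := by rw [h1, one_mul]
  rw [e1, FO, FO, map_sum]
  refine Finset.sum_congr rfl fun p _ => ?_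
  rw [map_mul, map_pow, map_pow, e2, map_ofNat]

/-- **Row PRJ** -/
theorem prj : PrjStmt := by
  classical
  intro M N N' S z hN
  unfold cnt
  rw [Finset.card_eq_sum_card_fiberwise
    (f := FO N') (t := Finset.univ.filter (fun y => pj N N' y = z))]
  · refine Finset.sum_congr rfl fun y hy => ?_
    have hy' : pj N N' y = z := (Finset.mem_filter.mp hy).2
    congr 1
    ext O
    simp only [Finset.mem_filter]
    constructor
    · rintro ⟨h1, h2, h3⟩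
      refine ⟨⟨h1, h2, ?_⟩, h3⟩
      rw [← pj_FO hN, h3, hy']
    · rintro ⟨⟨h1, h2, -⟩, h3⟩
      exact ⟨h1, h2, h3⟩
  · intro O hO
    have hO' := (Finset.mem_filter.mp (Finset.mem_coe.mp hO)).2.2
    rw [Finset.mem_coe, Finset.mem_filter]
    exact ⟨Finset.mem_univ _, by rw [pj_FO hN, hO']⟩

end Pool.Agent.WIR.H60
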