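import Pool.Agent.WIR.StmtsC

/-!
# Row WGN of the squad WIR (gain)
-/

set_option autoImplicit false

namespace Pool.Agent.WIR.H60

open Real

/-- **Row WGN** -/
theorem wgn : WgnStmt := by
  intro N a b h
  have hpos : (0 : ℝ) < 3 ^ N := by positivity
  have hab : ZMod.stdAddChar a + ZMod.stdAddChar b =
      ZMod.stdAddChar a * (1 + ZMod.stdAddChar (b - a)) := by
    rw [mul_add, mul_one, ← AddChar.map_add_eq_mul, add_sub_cancel]
  have hna : ‖ZMod.stdAddChar a‖ = 1 := AddChar.norm_apply _ _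
  have hχ : ZMod.stdAddChar (b - a) =
      Complex.exp (2 * π * Complex.I * ((b - a).valMinAbs : ℤ) / ((3 ^ N : ℕ) : ℂ)) := by
    have h1 := ZMod.stdAddChar_coe (N := 3 ^ N) (b - a).valMinAbs
    rw [ZMod.coe_valMinAbs] at h1
    exact h1
  have hmem := ZMod.valMinAbs_mem_Ioc (b - a)
  generalize (b - a).valMinAbs = m at h hχ hmem
  set θ : ℝ := (m : ℝ) / 3 ^ N with hθ
  have hm : |(m : ℝ)| * 2 ≤ 3 ^ N := by
    have h1 : -((3 ^ N : ℕ) : ℤ) < m * 2 := hmem.1
    have h2 : m * 2 ≤ ((3 ^ N : ℕ) : ℤ) := hmem.2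
    have h3 : |m * 2| ≤ ((3 ^ N : ℕ) : ℤ) := abs_le.mpr ⟨h1.le, h2⟩
    have h4 : ((|m * 2| : ℤ) : ℝ) ≤ (((3 ^ N : ℕ) : ℤ) : ℝ) := by exact_mod_cast h3
    push_cast at h4
    rw [abs_mul, abs_two] at h4
    exact h4
  have habs : |θ| = |(m : ℝ)| / 3 ^ N := by rw [hθ, abs_div, abs_of_pos hpos]
  have hθ1 : |θ| ≤ 1 / 2 := by
    rw [habs, div_le_iff₀ hpos]
    linarith
  have hθ2 : eps < |θ| := by
    rw [habs, lt_div_iff₀ hpos]
    exact h
  have heps : 0 ≤ eps := by unfold eps; positivity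
  have hkey : ‖(1 : ℂ) + ZMod.stdAddChar (b - a)‖ = 2 * |Real.cos (π * θ)| := by
    have e1 : ZMod.stdAddChar (b - a) = Complex.exp (((π * θ : ℝ) : ℂ) * Complex.I) *
        Complex.exp (((π * θ : ℝ) : ℂ) * Complex.I) := by
      rw [hχ, ← Complex.exp_add]
      congr 1
      rw [hθ]
      push_cast
      ring
    have e2 : (1 : ℂ) = Complex.exp (((π * θ : ℝ) : ℂ) * Complex.I) *
        Complex.exp (-((π * θ : ℝ) : ℂ) * Complex.I) := by
      rw [← Complex.exp_add]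
      simp
    have e3 : (1 : ℂ) + ZMod.stdAddChar (b - a) =
        Complex.exp (((π * θ : ℝ) : ℂ) * Complex.I) * (2 * ((Real.cos (π * θ) : ℝ) : ℂ)) := by
      rw [e1]
      nth_rewrite 1 [e2]
      rw [Complex.ofReal_cos, Complex.two_cos]
      ring
    rw [e3, norm_mul, Complex.norm_exp_ofReal_mul_I, one_mul, norm_mul, Complex.norm_real,
      Real.norm_eq_abs]
    simp
  have hcos : |Real.cos (π * θ)| ≤ 1 - 2 * |θ| ^ 2 := by
    have hπ := Real.pi_pos
    have h1 : Real.cos (π * θ) = Real.cos (π * |θ|) := by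
      rw [← Real.cos_abs, abs_mul, abs_of_pos hπ]
    have h2 : 0 ≤ Real.cos (π * |θ|) := by
      apply Real.cos_nonneg_of_neg_pi_div_two_le_of_le
      · have := mul_nonneg hπ.le (abs_nonneg θ)
        linarith
      · nlinarith
    have h3 : Real.cos (π * |θ|) = 1 - 2 * Real.sin (π * |θ| / 2) ^ 2 := by
      have h4 : π * |θ| = 2 * (π * |θ| / 2) := by ring
      rw [h4, Real.cos_two_mul, Real.cos_sq', ← h4]
      ring
    have h5 : |θ| ≤ Real.sin (π * |θ| / 2) := by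
      have h6 := Real.mul_le_sin (x := π * |θ| / 2)
        (by have := mul_nonneg hπ.le (abs_nonneg θ); linarith) (by nlinarith)
      have h7 : 2 / π * (π * |θ| / 2) = |θ| := by field_simp
      rw [h7] at h6
      exact h6
    rw [h1, abs_of_nonneg h2, h3]
    have h8 : |θ| ^ 2 ≤ Real.sin (π * |θ| / 2) ^ 2 := pow_le_pow_left₀ (abs_nonneg θ) h5 2
    linarith
  rw [hab, norm_mul, hna, one_mul, hkey]
  have h9 : eps ^ 2 ≤ |θ| ^ 2 := pow_le_pow_left₀ heps hθ2.le 2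
  linarith

end Pool.Agent.WIR.H60
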